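import Mathlib

/-!
# MP_dd1d4c_nt: integers with many nonzero digits whose squares have at most ten nonzero digits

For every base `b ≥ 2` (so for every prime `p`) there are integers `n` with arbitrarily many
nonzero base-`b` digits such that `n ^ 2` has at most ten nonzero base-`b` digits (at most seven if
`b ≥ 12`).  So the answer to the question is negative for every prime `p`, with `s = 10`.

The example is `n = T ^ 4 + 2 T ^ 3 - T ^ 2 + 2 T + 1` with `T = b ^ E`:
`n ^ 2 = T ^ 8 + 4 T ^ 7 + 2 T ^ 6 + 11 T ^ 4 + 2 T ^ 2 + 4 T + 1`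
has nonnegative coefficients, while `2 T ^ 3 - T ^ 2 = T ^ 3 + (T - 1) T ^ 2` and all the `E` digits
of `T - 1` are equal to `b - 1`.
-/

set_option autoImplicit false

namespace Pool.Agent.Results.MP_dd1d4c_nt.UnboundedDigits

/-- `N b m` is the number of nonzero digits of `m` in base `b`. -/
def N (b m : ℕ) : ℕ := ((Nat.digits b m).filter (fun d => d ≠ 0)).length

theorem N_zero (b : ℕ) : N b 0 = 0 := by simp [N]

/-- one digit is split off -/
theorem N_digit {b : ℕ} (hb : 2 ≤ b) (a y : ℕ) (ha : a < b) :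
    N b (a + b * y) = (if a = 0 then 0 else 1) + N b y := by
  rcases Nat.eq_zero_or_pos (a + b * y) with h0 | h0
  · have ha0 : a = 0 := by omega
    have hy0 : y = 0 := by
      rcases Nat.eq_zero_or_pos y with h | h
      · exact h
      · have := Nat.mul_pos (by omega : 0 < b) h
        omega
    subst ha0; subst hy0
    simp [N]
  · have h1 : Nat.digits b (a + b * y) = ((a + b * y) % b) :: Nat.digits b ((a + b * y) / b) :=
      Nat.digits_def' (by omega) h0
    have h2 : (a + b * y) % b = a := by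
      rw [Nat.add_mul_mod_self_left, Nat.mod_eq_of_lt ha]
    have h3 : (a + b * y) / b = y := by
      rw [Nat.add_mul_div_left _ _ (by omega : 0 < b), Nat.div_eq_of_lt ha, zero_add]
    rw [h2, h3] at h1
    unfold N
    rw [h1]
    by_cases ha0 : a = 0
    · simp [ha0]
    · simp [ha0, add_comm]

/-- the lowest `E` digits are split off -/
theorem N_block {b : ℕ} (hb : 2 ≤ b) (E : ℕ) : ∀ m q : ℕ, m < b ^ E →
    N b (m + b ^ E * q) = N b m + N b q := by
  induction E with
  | zero =>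
    intro m q hm
    have : m = 0 := by simpa using hm
    subst this
    simp [N_zero]
  | succ E ih =>
    intro m q hm
    have hm1 : m / b < b ^ E := by
      rw [Nat.div_lt_iff_lt_mul (by omega : 0 < b), ← pow_succ]
      exact hm
    have hlt : m % b < b := Nat.mod_lt _ (by omega)
    have hmm : m % b + b * (m / b) = m := Nat.mod_add_div m b
    have e1 : m + b ^ (E + 1) * q = m % b + b * (m / b + b ^ E * q) := by
      calc m + b ^ (E + 1) * q = (m % b + b * (m / b)) + b ^ (E + 1) * q := by rw [hmm]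
        _ = m % b + b * (m / b + b ^ E * q) := by rw [pow_succ]; ring
    have e2 : N b m = (if m % b = 0 then 0 else 1) + N b (m / b) := by
      conv_lhs => rw [← hmm]
      exact N_digit hb _ _ hlt
    rw [e1, N_digit hb _ _ hlt, ih _ _ hm1, e2]
    ring

/-- all digits of `b ^ E - 1` are equal to `b - 1` -/
theorem N_pow_sub_one {b : ℕ} (hb : 2 ≤ b) (E : ℕ) : N b (b ^ E - 1) = E := by
  induction E with
  | zero => simp [N_zero]
  | succ E ih =>
    have hpos : 1 ≤ b ^ E := Nat.one_le_pow _ _ (by omega)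
    have e1 : b ^ (E + 1) - 1 = (b - 1) + b * (b ^ E - 1) := by
      rw [pow_succ, Nat.mul_sub, mul_one, mul_comm (b ^ E) b]
      have : b ≤ b * b ^ E := Nat.le_mul_of_pos_right _ (by omega)
      omega
    rw [e1, N_digit hb _ _ (by omega), ih, if_neg (by omega)]
    ring

/-- `T ^ 4 + 2 T ^ 3 - T ^ 2 + 2 T + 1` -/
def num (T : ℕ) : ℕ := (2 * T + 1) + T ^ 2 * ((T - 1) + T * (1 + T))

theorem num_eq (T : ℕ) (hT : 1 ≤ T) :
    (num T : ℤ) = (T : ℤ) ^ 4 + 2 * T ^ 3 - T ^ 2 + 2 * T + 1 := by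
  unfold num
  push_cast [Nat.cast_sub hT]
  ring

theorem num_sq (T : ℕ) (hT : 1 ≤ T) :
    num T ^ 2 = 1 + T * (4 + T * (2 + T * (0 + T * (11 + T * (0 + T * (2 + T * (4 + T * 1))))))) := by
  have h : ((num T ^ 2 : ℕ) : ℤ) =
      ((1 + T * (4 + T * (2 + T * (0 + T * (11 + T * (0 + T * (2 + T * (4 + T * 1))))))) : ℕ) : ℤ) := by
    push_cast
    rw [num_eq T hT]
    ring
  exact_mod_cast h

theorem N_small {b c : ℕ} (hb : 2 ≤ b) (hc : c < b) : N b c ≤ 1 := by
  have h := N_digit hb c 0 hc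
  rw [mul_zero, add_zero, N_zero, add_zero] at h
  rw [h]
  split_ifs <;> omega

theorem coeffs_ge {b : ℕ} (hb : 12 ≤ b) :
    N b 1 + (N b 4 + (N b 2 + (N b 0 + (N b 11 + (N b 0 + (N b 2 + (N b 4 + N b 1))))))) ≤ 7 := by
  have h1 := N_small (b := b) (c := 1) (by omega) (by omega)
  have h2 := N_small (b := b) (c := 2) (by omega) (by omega)
  have h4 := N_small (b := b) (c := 4) (by omega) (by omega)
  have h11 := N_small (b := b) (c := 11) (by omega) (by omega)
  have h0 := N_zero b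
  omega

theorem coeffs {b : ℕ} (hb : 2 ≤ b) :
    N b 1 + (N b 4 + (N b 2 + (N b 0 + (N b 11 + (N b 0 + (N b 2 + (N b 4 + N b 1))))))) ≤ 10 := by
  by_cases h : 12 ≤ b
  · exact (coeffs_ge h).trans (by norm_num)
  · have hb2 : b < 12 := by omega
    unfold N
    interval_cases b <;> norm_num

theorem N_sq {b : ℕ} (hb : 2 ≤ b) (E : ℕ) (hE : 11 < b ^ E) :
    N b (num (b ^ E) ^ 2) =
      N b 1 + (N b 4 + (N b 2 + (N b 0 + (N b 11 + (N b 0 + (N b 2 + (N b 4 + N b 1))))))) := by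
  rw [num_sq _ (by omega), N_block hb E _ _ (by omega), N_block hb E _ _ (by omega),
    N_block hb E _ _ (by omega), N_block hb E _ _ (by omega), N_block hb E _ _ (by omega),
    N_block hb E _ _ (by omega), N_block hb E _ _ (by omega), N_block hb E _ _ (by omega)]

theorem N_num {b : ℕ} (hb : 2 ≤ b) (E : ℕ) (hE : 11 < b ^ E) : E ≤ N b (num (b ^ E)) := by
  have h1 : 2 * b ^ E + 1 < b ^ (2 * E) := by
    have : b ^ (2 * E) = b ^ E * b ^ E := by rw [two_mul, pow_add]
    rw [this]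
    nlinarith
  have h2 : num (b ^ E) = (2 * b ^ E + 1) + b ^ (2 * E) * ((b ^ E - 1) + b ^ E * (1 + b ^ E)) := by
    unfold num
    rw [← pow_mul, mul_comm E 2]
  rw [h2, N_block hb (2 * E) _ _ h1, N_block hb E _ _ (by omega), N_pow_sub_one hb]
  omega

/-- For every base `b ≥ 2` and every `ℓ` there are infinitely many `n` with more than `ℓ` nonzero
digits and a square with at most ten (for `b ≥ 12` at most seven) nonzero digits; in particular the
answer to the question is negative for every prime `p`. -/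
theorem result :
    (∀ p : ℕ, p.Prime → ∃ s : ℕ, 1 ≤ s ∧ ∀ ℓ : ℕ, ∃ n : ℕ, N p (n ^ 2) ≤ s ∧ ℓ < N p n) ∧
    (∀ b : ℕ, 2 ≤ b → ∀ ℓ B : ℕ, ∃ n : ℕ, B < n ∧ ℓ < N b n ∧ N b (n ^ 2) ≤ 10 ∧
      (12 ≤ b → N b (n ^ 2) ≤ 7)) := by
  have main : ∀ b : ℕ, 2 ≤ b → ∀ ℓ B : ℕ, ∃ n : ℕ, B < n ∧ ℓ < N b n ∧ N b (n ^ 2) ≤ 10 ∧
      (12 ≤ b → N b (n ^ 2) ≤ 7) := by
    intro b hb ℓ B
    have hE : 11 < b ^ (ℓ + B + 4) := by
      calc 11 < 2 ^ 4 := by norm_num
        _ ≤ b ^ 4 := Nat.pow_le_pow_left hb 4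
        _ ≤ b ^ (ℓ + B + 4) := Nat.pow_le_pow_right (by omega) (by omega)
    have hlt : ℓ + B + 4 < b ^ (ℓ + B + 4) := Nat.lt_pow_self (by omega)
    have hn : b ^ (ℓ + B + 4) ≤ num (b ^ (ℓ + B + 4)) := by
      unfold num
      have : 0 ≤ (b ^ (ℓ + B + 4)) ^ 2 *
        ((b ^ (ℓ + B + 4) - 1) + b ^ (ℓ + B + 4) * (1 + b ^ (ℓ + B + 4))) := Nat.zero_le _
      omega
    refine ⟨num (b ^ (ℓ + B + 4)), by omega, ?_, ?_, ?_⟩
    · have := N_num hb _ hE
      omega
    · rw [N_sq hb _ hE]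
      exact coeffs hb
    · intro h
      rw [N_sq hb _ hE]
      exact coeffs_ge h
  refine ⟨?_, main⟩
  intro p hp
  refine ⟨10, by norm_num, fun ℓ => ?_⟩
  obtain ⟨n, _, h2, h3, _⟩ := main p hp.two_le ℓ 0
  exact ⟨n, h3, h2⟩

end Pool.Agent.Results.MP_dd1d4c_nt.UnboundedDigits
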